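import Pool.Agent.Lib.MT.Stm

/-!
MP_00e23e_nt, directory Lib/MT, module Bbt: one block, Type II (helper99, after helper94 and helper63).
-/

namespace Pool.Agent.Lib.MT

open Finset Pool.Agent.Lib.EH3 Pool.Agent.Lib.TB Pool.Agent.Results.MP_00e23e_nt Pool.Agent.Lib.MI

private theorem Bbt_E {x : ℝ} (hx : 0 < x) (a b c : ℝ) (h : a + b = c) :
    x ^ a * x ^ b = x ^ c := by
  rw [← Real.rpow_add hx, h]

private theorem Bbt_L {x : ℝ} (hx : 1 ≤ x) (a b : ℝ) (h : a ≤ b) : x ^ a ≤ x ^ b :=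
  Real.rpow_le_rpow_of_exponent_le hx h

private theorem Bbt_G2 (δ κ ε x m n r s : ℝ) (hx : 1 ≤ x) (hr : 0 < r) (hm : 0 < m) (hs : 0 < s)
    (F3 : x ^ (1 - ε) ≤ m * n) (F7 : n * x ^ (-ε - κ) ≤ 2 * r)
    (F8 : r * s ≤ x ^ (1 / 2 + δ)) : r * s ^ 2 ≤ 2 * x ^ (yy δ κ ε - ε) * m := by
  have hx0 : 0 < x := by linarith
  have h1 : (r * s) ^ 2 ≤ x ^ (1 + 2 * δ) := by
    have h : x ^ (1 + 2 * δ) = (x ^ (1 / 2 + δ)) ^ 2 := by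
      rw [sq, Bbt_E hx0 _ _ (1 + 2 * δ) (by ring)]
    rw [h]
    exact pow_le_pow_left₀ (by positivity) F8 2
  have h2 : x ^ (1 - 2 * ε - κ) ≤ 2 * (r * m) := by
    calc x ^ (1 - 2 * ε - κ) = x ^ (1 - ε) * x ^ (-ε - κ) := (Bbt_E hx0 _ _ _ (by ring)).symm
      _ ≤ (m * n) * x ^ (-ε - κ) := mul_le_mul_of_nonneg_right F3 (Real.rpow_nonneg hx0.le _)
      _ = m * (n * x ^ (-ε - κ)) := by ring
      _ ≤ m * (2 * r) := mul_le_mul_of_nonneg_left F7 hm.le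
      _ = _ := by ring
  have h3 : x ^ (1 + 2 * δ) ≤ x ^ (yy δ κ ε - ε) * (2 * (r * m)) := by
    calc x ^ (1 + 2 * δ) = x ^ (yy δ κ ε - ε) * x ^ (1 - 2 * ε - κ) :=
          (Bbt_E hx0 _ _ _ (by unfold yy; ring)).symm
      _ ≤ _ := mul_le_mul_of_nonneg_left h2 (Real.rpow_nonneg hx0.le _)
  have h4 : r * (r * s ^ 2) ≤ r * (2 * x ^ (yy δ κ ε - ε) * m) := by
    calc r * (r * s ^ 2) = (r * s) ^ 2 := by ring
      _ ≤ x ^ (yy δ κ ε - ε) * (2 * (r * m)) := h1.trans h3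
      _ = _ := by ring
  exact le_of_mul_le_mul_left h4 hr

private theorem Bbt_G5 (δ κ ε x n r s : ℝ) (hx : 1 ≤ x) (hs : 0 < s)
    (F7 : n * x ^ (-ε - κ) ≤ 2 * r) (F8 : r * s ≤ x ^ (1 / 2 + δ)) :
    s * n ≤ 2 * x ^ (1 / 2 + δ + ε + κ) := by
  have hx0 : 0 < x := by linarith
  have h1 : n ≤ 2 * r * x ^ (ε + κ) := by
    have h2 : x ^ (-ε - κ) * x ^ (ε + κ) = 1 := by
      rw [Bbt_E hx0 _ _ 0 (by ring), Real.rpow_zero]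
    calc n = n * x ^ (-ε - κ) * x ^ (ε + κ) := by rw [mul_assoc, h2, mul_one]
      _ ≤ _ := mul_le_mul_of_nonneg_right F7 (Real.rpow_nonneg hx0.le _)
  calc s * n ≤ s * (2 * r * x ^ (ε + κ)) := mul_le_mul_of_nonneg_left h1 hs.le
    _ = 2 * ((r * s) * x ^ (ε + κ)) := by ring
    _ ≤ 2 * (x ^ (1 / 2 + δ) * x ^ (ε + κ)) :=
        mul_le_mul_of_nonneg_left (mul_le_mul_of_nonneg_right F8 (Real.rpow_nonneg hx0.le _))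
          (by norm_num)
    _ = _ := by rw [Bbt_E hx0 _ _ (1 / 2 + δ + ε + κ) (by ring)]

private theorem Bbt_G6 (ε x n r s : ℝ) (hx : 1 ≤ x) (hs : 0 < s) (hn : n ≤ x ^ ((1 : ℝ) / 2))
    (F6 : r ≤ n * x ^ (-ε)) (F9 : x ^ (1 / 2 - ε / 2) ≤ 4 * (r * s)) :
    1 / s ^ 2 ≤ 16 * x ^ (-ε) := by
  have hx0 : 0 < x := by linarith
  have hp : ∀ a : ℝ, 0 < x ^ a := fun a => Real.rpow_pos_of_pos hx0 a
  have h1 : x ^ (1 / 2 - ε) * x ^ (ε / 2) ≤ x ^ (1 / 2 - ε) * (4 * s) := by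
    calc x ^ (1 / 2 - ε) * x ^ (ε / 2) = x ^ (1 / 2 - ε / 2) := Bbt_E hx0 _ _ _ (by ring)
      _ ≤ 4 * (r * s) := F9
      _ ≤ 4 * (n * x ^ (-ε) * s) :=
          mul_le_mul_of_nonneg_left (mul_le_mul_of_nonneg_right F6 hs.le) (by norm_num)
      _ ≤ 4 * (x ^ ((1 : ℝ) / 2) * x ^ (-ε) * s) :=
          mul_le_mul_of_nonneg_left (mul_le_mul_of_nonneg_right
            (mul_le_mul_of_nonneg_right hn (hp _).le) hs.le) (by norm_num)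
      _ = _ := by
          rw [Bbt_E hx0 _ _ (1 / 2 - ε) (by ring)]
          ring
  have h2 : x ^ (ε / 2) ≤ 4 * s := le_of_mul_le_mul_left h1 (hp _)
  have h3 : x ^ ε ≤ 16 * s ^ 2 := by
    calc x ^ ε = (x ^ (ε / 2)) ^ 2 := by rw [sq, Bbt_E hx0 _ _ ε (by ring)]
      _ ≤ (4 * s) ^ 2 := pow_le_pow_left₀ (hp _).le h2 2
      _ = _ := by ring
  rw [Real.rpow_neg hx0.le, div_le_iff₀ (by positivity)]
  have h4 : (x ^ ε)⁻¹ * x ^ ε = 1 := inv_mul_cancel₀ (hp _).ne'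
  have h5 : (x ^ ε)⁻¹ * x ^ ε ≤ (x ^ ε)⁻¹ * (16 * s ^ 2) :=
    mul_le_mul_of_nonneg_left h3 (inv_nonneg.2 (hp _).le)
  linarith

private theorem Bbt_G8 (ε x n r s : ℝ) (hx : 1 ≤ x) (hs : 0 < s) (hn : n ≤ x ^ ((1 : ℝ) / 2))
    (F6 : r ≤ n * x ^ (-ε)) (F9 : x ^ (1 / 2 - ε / 2) ≤ 4 * (r * s)) : x ^ (ε / 2) ≤ 4 * s := by
  have hx0 : 0 < x := by linarith
  have hp : ∀ a : ℝ, 0 < x ^ a := fun a => Real.rpow_pos_of_pos hx0 a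
  have h1 : x ^ (1 / 2 - ε) * x ^ (ε / 2) ≤ x ^ (1 / 2 - ε) * (4 * s) := by
    calc x ^ (1 / 2 - ε) * x ^ (ε / 2) = x ^ (1 / 2 - ε / 2) := Bbt_E hx0 _ _ _ (by ring)
      _ ≤ 4 * (r * s) := F9
      _ ≤ 4 * (n * x ^ (-ε) * s) :=
          mul_le_mul_of_nonneg_left (mul_le_mul_of_nonneg_right F6 hs.le) (by norm_num)
      _ ≤ 4 * (x ^ ((1 : ℝ) / 2) * x ^ (-ε) * s) :=
          mul_le_mul_of_nonneg_left (mul_le_mul_of_nonneg_right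
            (mul_le_mul_of_nonneg_right hn (hp _).le) hs.le) (by norm_num)
      _ = _ := by
          rw [Bbt_E hx0 _ _ (1 / 2 - ε) (by ring)]
          ring
  exact le_of_mul_le_mul_left h1 (hp _)

/-- the third term -/
private theorem Bbt_G7 (δ κ ε x n r s Y : ℝ) (hx : 1 ≤ x) (hε : 0 < ε) (hn : 0 < n)
    (hs : 0 < s) (hY0 : 0 ≤ Y) (hY : Y ≤ x ^ (yy δ κ ε)) (hrn : r ≤ n)
    (hp : 84 * δ + 60 * κ + 400 * ε ≤ 1) (hδ : 0 ≤ δ)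
    (G5 : s * n ≤ 2 * x ^ (1 / 2 + δ + ε + κ)) (F10 : x ^ (1 / 2 - sh δ κ ε) ≤ n) :
    Real.sqrt r * Y ^ 2 * s ^ 4 / n ≤ 16 * x ^ (-ε) := by
  have hx0 : 0 < x := by linarith
  have hpp : ∀ a : ℝ, 0 < x ^ a := fun a => Real.rpow_pos_of_pos hx0 a
  have h1 : Real.sqrt r ≤ n ^ ((1 : ℝ) / 2) := by
    rw [← Real.sqrt_eq_rpow]
    exact Real.sqrt_le_sqrt hrn
  have h2 : Y ^ 2 ≤ x ^ (2 * yy δ κ ε) := by
    calc Y ^ 2 ≤ (x ^ (yy δ κ ε)) ^ 2 := pow_le_pow_left₀ hY0 hY 2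
      _ = _ := by rw [sq, Bbt_E hx0 _ _ (2 * yy δ κ ε) (by ring)]
  have h3 : s ^ 4 * n ^ 4 ≤ 16 * x ^ (2 + 4 * δ + 4 * ε + 4 * κ) := by
    calc s ^ 4 * n ^ 4 = (s * n) ^ 4 := by ring
      _ ≤ (2 * x ^ (1 / 2 + δ + ε + κ)) ^ 4 := pow_le_pow_left₀ (by positivity) G5 4
      _ = 16 * ((x ^ (1 / 2 + δ + ε + κ) * x ^ (1 / 2 + δ + ε + κ)) *
          (x ^ (1 / 2 + δ + ε + κ) * x ^ (1 / 2 + δ + ε + κ))) := by ring
      _ = _ := by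
          rw [Bbt_E hx0 _ _ (1 + 2 * δ + 2 * ε + 2 * κ) (by ring),
            Bbt_E hx0 _ _ (2 + 4 * δ + 4 * ε + 4 * κ) (by ring)]
  have h4 : n ^ (-((9 : ℝ) / 2)) ≤ x ^ (-(9 : ℝ) / 4 + 9 / 2 * sh δ κ ε) := by
    calc n ^ (-((9 : ℝ) / 2)) ≤ (x ^ (1 / 2 - sh δ κ ε)) ^ (-((9 : ℝ) / 2)) :=
          Real.rpow_le_rpow_of_nonpos (hpp _) F10 (by norm_num)
      _ = _ := by
          rw [← Real.rpow_mul hx0.le]
          refine congrArg _ ?_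
          ring
  have h5 : n ^ ((1 : ℝ) / 2) * s ^ 4 / n = s ^ 4 * n ^ 4 * n ^ (-((9 : ℝ) / 2)) := by
    have h6 : n ^ ((1 : ℝ) / 2) = n ^ (-((9 : ℝ) / 2)) * n ^ 5 := by
      rw [← Real.rpow_natCast n 5, Bbt_E hn _ _ ((1 : ℝ) / 2) (by norm_num)]
    rw [h6]
    field_simp
  calc Real.sqrt r * Y ^ 2 * s ^ 4 / n = Real.sqrt r * (Y ^ 2 * (s ^ 4 / n)) := by ring
    _ ≤ n ^ ((1 : ℝ) / 2) * (Y ^ 2 * (s ^ 4 / n)) :=
        mul_le_mul_of_nonneg_right h1 (by positivity)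
    _ = Y ^ 2 * (n ^ ((1 : ℝ) / 2) * s ^ 4 / n) := by ring
    _ = Y ^ 2 * (s ^ 4 * n ^ 4 * n ^ (-((9 : ℝ) / 2))) := by rw [h5]
    _ ≤ x ^ (2 * yy δ κ ε) * (16 * x ^ (2 + 4 * δ + 4 * ε + 4 * κ) *
          x ^ (-(9 : ℝ) / 4 + 9 / 2 * sh δ κ ε)) := by
        refine mul_le_mul h2 ?_ (by positivity) (hpp _).le
        exact mul_le_mul h3 h4 (Real.rpow_nonneg hn.le _) (by positivity)
    _ = 16 * (x ^ (2 * yy δ κ ε) * (x ^ (2 + 4 * δ + 4 * ε + 4 * κ) *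
          x ^ (-(9 : ℝ) / 4 + 9 / 2 * sh δ κ ε))) := by ring
    _ = 16 * x ^ (2 * yy δ κ ε + (2 + 4 * δ + 4 * ε + 4 * κ + (-(9 : ℝ) / 4 +
          9 / 2 * sh δ κ ε))) := by
        rw [← Real.rpow_add hx0, ← Real.rpow_add hx0]
    _ ≤ 16 * x ^ (-ε) := by
        refine mul_le_mul_of_nonneg_left (Bbt_L hx _ _ ?_) (by norm_num)
        unfold yy sh
        linarith

/-- the size conditions -/
private theorem Bbt_sz (x m n r s h y : ℝ) (hx100 : 100 ≤ x) (hm0 : 0 < m) (hn0 : 0 < n)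
    (hr0 : 0 < r) (hs0 : 0 < s) (F4 : m * n ≤ x) (hmn : n ≤ m) (hrs : r * s ≤ x) (hsx : s ≤ x)
    (hh : 0 ≤ h) (hy : 0 ≤ y) (h1 : h ≤ 2 * x) (h2 : y ≤ x) :
    100 * m ^ 2 * n ^ 2 * r ^ 2 * s ^ 4 ≤ x ^ (30 : ℝ) ∧
    400 * r ^ 2 * s ^ 4 * n ^ 2 * (2 * h + y) ^ 2 ≤ x ^ (30 : ℝ) := by
  have hx0 : 0 < x := by linarith
  have hx1 : 1 ≤ x := by linarith
  have hrs4 : r ^ 2 * s ^ 4 ≤ x ^ 4 := by
    calc r ^ 2 * s ^ 4 = (r * s) ^ 2 * s ^ 2 := by ring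
      _ ≤ x ^ 2 * x ^ 2 := mul_le_mul (pow_le_pow_left₀ (by positivity) hrs 2)
          (pow_le_pow_left₀ hs0.le hsx 2) (by positivity) (by positivity)
      _ = x ^ 4 := by ring
  have hmn2 : (m * n) ^ 2 ≤ x ^ 2 := pow_le_pow_left₀ (by positivity) F4 2
  have hX30 : x ^ (30 : ℝ) = x ^ 30 := by
    rw [← Real.rpow_natCast x 30]
    norm_num
  rw [hX30]
  constructor
  · calc 100 * m ^ 2 * n ^ 2 * r ^ 2 * s ^ 4 =
          100 * (((m * n) ^ 2) * (r ^ 2 * s ^ 4)) := by ring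
      _ ≤ x * (x ^ 2 * x ^ 4) :=
          mul_le_mul hx100 (mul_le_mul hmn2 hrs4 (by positivity) (by positivity))
            (by positivity) hx0.le
      _ = x ^ 7 := by ring
      _ ≤ x ^ 30 := pow_le_pow_right₀ hx1 (by norm_num)
  · have h4 : (2 * h + y) ^ 2 ≤ (5 * x) ^ 2 :=
      pow_le_pow_left₀ (by positivity) (by linarith) 2
    have h5 : n ^ 2 ≤ x := by
      calc n ^ 2 = n * n := sq _
        _ ≤ m * n := mul_le_mul_of_nonneg_right hmn hn0.le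
        _ ≤ x := F4
    calc 400 * r ^ 2 * s ^ 4 * n ^ 2 * (2 * h + y) ^ 2 =
          400 * (((r ^ 2 * s ^ 4) * n ^ 2) * (2 * h + y) ^ 2) := by ring
      _ ≤ 400 * ((x ^ 4 * x) * (5 * x) ^ 2) :=
          mul_le_mul_of_nonneg_left (mul_le_mul (mul_le_mul hrs4 h5 (by positivity)
            (by positivity)) h4 (by positivity) (by positivity)) (by norm_num)
      _ = 10000 * x ^ 7 := by ring
      _ ≤ (x * x) * x ^ 7 := by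
          have h6 : (100 : ℝ) * 100 ≤ x * x := mul_le_mul hx100 hx100 (by norm_num) hx0.le
          exact mul_le_mul_of_nonneg_right (by linarith) (by positivity)
      _ = x ^ 9 := by ring
      _ ≤ x ^ 30 := pow_le_pow_right₀ hx1 (by norm_num)

/-- the root -/
private theorem Bbt_Q (δ κ ε x m n r s Y : ℝ) (hx : 1 ≤ x) (hm0 : 0 < m) (hr0 : 0 < r)
    (hs0 : 0 < s) (hY0 : 0 ≤ Y) (hYx : Y ≤ x ^ (yy δ κ ε)) (hYle : Y ≤ 4 * (r * s ^ 2) / m + 1)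
    (hmn : n ≤ m) (F6 : r ≤ n * x ^ (-ε)) (hr13 : x ^ ((1 : ℝ) / 3 - 2 * ε - κ) ≤ 2 * r)
    (he : 2 * yy δ κ ε ≤ -ε + ((1 : ℝ) / 3 - 2 * ε - κ))
    (q1 : Real.sqrt r * Y ^ 2 * s ^ 4 / n ≤ 16 * x ^ (-ε)) (G6 : 1 / s ^ 2 ≤ 16 * x ^ (-ε)) :
    Real.sqrt r * Y ^ 2 * s ^ 4 / n + Y / s ^ 2 + Y ^ 2 / r ≤ 49 * x ^ (-ε) := by
  have hx0 : 0 < x := by linarith
  have hp : ∀ a : ℝ, 0 < x ^ a := fun a => Real.rpow_pos_of_pos hx0 a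
  have q2 : Y / s ^ 2 ≤ 20 * x ^ (-ε) := by
    have h4 : r / m ≤ x ^ (-ε) := by
      rw [div_le_iff₀ hm0]
      calc r ≤ n * x ^ (-ε) := F6
        _ ≤ m * x ^ (-ε) := mul_le_mul_of_nonneg_right hmn (hp _).le
        _ = _ := mul_comm _ _
    calc Y / s ^ 2 ≤ (4 * (r * s ^ 2) / m + 1) / s ^ 2 :=
          div_le_div_of_nonneg_right hYle (by positivity)
      _ = 4 * (r / m) + 1 / s ^ 2 := by field_simp
      _ ≤ 4 * x ^ (-ε) + 16 * x ^ (-ε) := by linarith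
      _ = _ := by ring
  have q3 : Y ^ 2 / r ≤ 2 * x ^ (-ε) := by
    have h4 : Y ^ 2 ≤ x ^ (2 * yy δ κ ε) := by
      calc Y ^ 2 ≤ (x ^ (yy δ κ ε)) ^ 2 := pow_le_pow_left₀ hY0 hYx 2
        _ = _ := by rw [sq, Bbt_E hx0 _ _ (2 * yy δ κ ε) (by ring)]
    rw [div_le_iff₀ hr0]
    refine h4.trans ?_
    have h5 : x ^ (2 * yy δ κ ε) ≤ x ^ (-ε) * x ^ ((1 : ℝ) / 3 - 2 * ε - κ) := by
      rw [← Real.rpow_add hx0]
      exact Bbt_L hx _ _ he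
    have h6 : x ^ (-ε) * x ^ ((1 : ℝ) / 3 - 2 * ε - κ) ≤ x ^ (-ε) * (2 * r) :=
      mul_le_mul_of_nonneg_left hr13 (hp _).le
    linarith
  have := hp (-ε)
  linarith

/-- the two roots -/
private theorem Bbt_rt (ε x s Q : ℝ) (hx : 1 ≤ x) (hε : 0 < ε) (hs0 : 0 < s)
    (hQ : Q ≤ 49 * x ^ (-ε)) (h : x ^ (ε / 2) ≤ 4 * s) :
    Real.sqrt Q ≤ 7 * x ^ (-(ε / 2)) ∧ Real.sqrt (Q + 1 / s) ≤ 8 * x ^ (-(ε / 4)) := by
  have hx0 : 0 < x := by linarith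
  have hp : ∀ a : ℝ, 0 < x ^ a := fun a => Real.rpow_pos_of_pos hx0 a
  have hp1 := hp (-(ε / 2))
  have hp2 := hp (-(ε / 4))
  constructor
  · refine Real.sqrt_le_iff.2 ⟨by positivity, ?_⟩
    have h4 : (7 * x ^ (-(ε / 2))) ^ 2 = 49 * x ^ (-ε) := by
      rw [mul_pow, sq (x ^ (-(ε / 2))), Bbt_E hx0 _ _ (-ε) (by ring)]
      norm_num
    rw [h4]
    exact hQ
  · refine Real.sqrt_le_iff.2 ⟨by positivity, ?_⟩
    have h4 : (8 * x ^ (-(ε / 4))) ^ 2 = 64 * x ^ (-(ε / 2)) := by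
      rw [mul_pow, sq (x ^ (-(ε / 4))), Bbt_E hx0 _ _ (-(ε / 2)) (by ring)]
      norm_num
    have h5 : x ^ (-ε) ≤ x ^ (-(ε / 2)) := Bbt_L hx _ _ (by linarith)
    have h6 : 1 / s ≤ 4 * x ^ (-(ε / 2)) := by
      rw [div_le_iff₀ hs0, Real.rpow_neg hx0.le]
      have h7 : (x ^ (ε / 2))⁻¹ * x ^ (ε / 2) = 1 := inv_mul_cancel₀ (hp _).ne'
      have h8 : (x ^ (ε / 2))⁻¹ * x ^ (ε / 2) ≤ (x ^ (ε / 2))⁻¹ * (4 * s) :=
        mul_le_mul_of_nonneg_left h (inv_nonneg.2 (hp _).le)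
      linarith
    rw [h4]
    linarith

/-- the sum of the six terms -/
private theorem Bbt_sum (δ κ κ0 ε μ x m n r s H Q Q' C2 C4 T z1 : ℝ) (A2 A4 : ℕ) (hx : 1 ≤ x)
    (hm0 : 0 < m) (hn0 : 0 < n) (hr0 : 0 < r) (hs0 : 0 < s) (hμ0 : 0 < μ)
    (hμε : μ ≤ ε / 4) (hμκ : μ ≤ κ0) (hC2 : 0 < C2) (hC4 : 0 < C4) (hmn : n ≤ m)
    (hmn2 : (m * n) ^ 2 ≤ x ^ 2)
    (F6 : r ≤ n * x ^ (-ε)) (G2 : r * s ^ 2 ≤ 2 * x ^ (yy δ κ ε - ε) * m)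
    (hHge : x ^ (2 * yy δ κ ε + ε) ≤ H) (hT : 1 ≤ T)
    (hz : 1 / z1 ^ 2 ≤ x ^ (-(yy δ κ ε + 2 * ε)) + 16 / s ^ 2)
    (hsq : Real.sqrt Q ≤ 7 * x ^ (-(ε / 2))) (hsq' : Real.sqrt Q' ≤ 8 * x ^ (-(ε / 4))) :
    r * m ^ 2 * n + m ^ 2 * n ^ 2 / x ^ κ0 + r ^ 2 * s ^ 4 * n ^ 2 / H +
      r * m * n ^ 2 * s ^ 2 / z1 ^ 2 + m * n * (C2 * T ^ A2 * (m * n) * Real.sqrt Q) +
      m * n * (C4 * T ^ A4 * (m * n) * Real.sqrt Q') ≤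
      (24 + 7 * C2 + 8 * C4) * T ^ (A2 + A4) * (x ^ 2 * x ^ (-μ)) := by
  have hx0 : 0 < x := by linarith
  have hp : ∀ a : ℝ, 0 < x ^ a := fun a => Real.rpow_pos_of_pos hx0 a
  have hx2 : (0 : ℝ) < x ^ 2 := by positivity
  have hmu : ∀ t : ℝ, μ ≤ t → x ^ (-t) ≤ x ^ (-μ) := fun t ht => Bbt_L hx _ _ (by linarith)
  have t1 : r * m ^ 2 * n ≤ x ^ 2 * x ^ (-μ) := by
    calc r * m ^ 2 * n ≤ (n * x ^ (-ε)) * m ^ 2 * n := by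
          refine mul_le_mul_of_nonneg_right (mul_le_mul_of_nonneg_right F6 ?_) hn0.le
          positivity
      _ = (m * n) ^ 2 * x ^ (-ε) := by ring
      _ ≤ x ^ 2 * x ^ (-μ) := mul_le_mul hmn2 (hmu ε (by linarith)) (hp _).le hx2.le
  have t2 : m ^ 2 * n ^ 2 / x ^ κ0 ≤ x ^ 2 * x ^ (-μ) := by
    have h4 : m ^ 2 * n ^ 2 / x ^ κ0 = (m * n) ^ 2 * x ^ (-κ0) := by
      rw [Real.rpow_neg hx0.le, div_eq_mul_inv]
      ring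
    rw [h4]
    exact mul_le_mul hmn2 (hmu κ0 hμκ) (hp _).le hx2.le
  have t3 : r ^ 2 * s ^ 4 * n ^ 2 / H ≤ 4 * (x ^ 2 * x ^ (-μ)) := by
    have hH0 : (0 : ℝ) < H := lt_of_lt_of_le (hp _) hHge
    rw [div_le_iff₀ hH0]
    have h4 : (r * s ^ 2) ^ 2 ≤ (2 * x ^ (yy δ κ ε - ε) * m) ^ 2 :=
      pow_le_pow_left₀ (by positivity) G2 2
    have h5 : (2 * x ^ (yy δ κ ε - ε) * m) ^ 2 * n ^ 2 =
        4 * (x ^ (2 * yy δ κ ε - 2 * ε) * (m * n) ^ 2) := by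
      rw [← Bbt_E hx0 (yy δ κ ε - ε) (yy δ κ ε - ε) (2 * yy δ κ ε - 2 * ε) (by ring)]
      ring
    have h6 : x ^ (2 * yy δ κ ε - 2 * ε) ≤ x ^ (-μ) * x ^ (2 * yy δ κ ε + ε) := by
      rw [← Real.rpow_add hx0]
      exact Bbt_L hx _ _ (by linarith)
    calc r ^ 2 * s ^ 4 * n ^ 2 = (r * s ^ 2) ^ 2 * n ^ 2 := by ring
      _ ≤ (2 * x ^ (yy δ κ ε - ε) * m) ^ 2 * n ^ 2 :=
          mul_le_mul_of_nonneg_right h4 (by positivity)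
      _ = 4 * (x ^ (2 * yy δ κ ε - 2 * ε) * (m * n) ^ 2) := h5
      _ ≤ 4 * ((x ^ (-μ) * x ^ (2 * yy δ κ ε + ε)) * x ^ 2) :=
          mul_le_mul_of_nonneg_left (mul_le_mul h6 hmn2 (by positivity) (by positivity))
            (by norm_num)
      _ = 4 * (x ^ 2 * x ^ (-μ)) * x ^ (2 * yy δ κ ε + ε) := by ring
      _ ≤ 4 * (x ^ 2 * x ^ (-μ)) * H := mul_le_mul_of_nonneg_left hHge (by positivity)
  have hZ : 0 < x ^ 2 * x ^ (-μ) := mul_pos hx2 (hp _)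
  have t5 : r * m * n ^ 2 * s ^ 2 / z1 ^ 2 ≤ 18 * (x ^ 2 * x ^ (-μ)) := by
    have h3 : 0 ≤ r * m * n ^ 2 * s ^ 2 := by positivity
    have h4 : r * m * n ^ 2 * s ^ 2 / z1 ^ 2 ≤
        (r * s ^ 2) * (m * n ^ 2) * x ^ (-(yy δ κ ε + 2 * ε)) + 16 * (r * (m * n ^ 2)) := by
      calc r * m * n ^ 2 * s ^ 2 / z1 ^ 2 = r * m * n ^ 2 * s ^ 2 * (1 / z1 ^ 2) := by ring
        _ ≤ r * m * n ^ 2 * s ^ 2 * (x ^ (-(yy δ κ ε + 2 * ε)) + 16 / s ^ 2) :=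
            mul_le_mul_of_nonneg_left hz h3
        _ = _ := by
            field_simp
    have h5 : (r * s ^ 2) * (m * n ^ 2) * x ^ (-(yy δ κ ε + 2 * ε)) ≤
        2 * (x ^ 2 * x ^ (-μ)) := by
      have h6 : x ^ (yy δ κ ε - ε) * x ^ (-(yy δ κ ε + 2 * ε)) ≤ x ^ (-μ) := by
        rw [← Real.rpow_add hx0]
        exact Bbt_L hx _ _ (by linarith)
      calc (r * s ^ 2) * (m * n ^ 2) * x ^ (-(yy δ κ ε + 2 * ε)) ≤
            (2 * x ^ (yy δ κ ε - ε) * m) * (m * n ^ 2) * x ^ (-(yy δ κ ε + 2 * ε)) :=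
            mul_le_mul_of_nonneg_right (mul_le_mul_of_nonneg_right G2 (by positivity)) (hp _).le
        _ = 2 * ((m * n) ^ 2 * (x ^ (yy δ κ ε - ε) * x ^ (-(yy δ κ ε + 2 * ε)))) := by ring
        _ ≤ 2 * (x ^ 2 * x ^ (-μ)) :=
            mul_le_mul_of_nonneg_left (mul_le_mul hmn2 h6 (mul_pos (hp _) (hp _)).le hx2.le)
              (by norm_num)
    have h7 : r * (m * n ^ 2) ≤ x ^ 2 * x ^ (-μ) := by
      calc r * (m * n ^ 2) ≤ (n * x ^ (-ε)) * (m * n ^ 2) :=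
            mul_le_mul_of_nonneg_right F6 (by positivity)
        _ = n * (m * n ^ 2 * x ^ (-ε)) := by ring
        _ ≤ m * (m * n ^ 2 * x ^ (-ε)) :=
            mul_le_mul_of_nonneg_right hmn (by have := hp (-ε); positivity)
        _ = (m * n) ^ 2 * x ^ (-ε) := by ring
        _ ≤ x ^ 2 * x ^ (-μ) := mul_le_mul hmn2 (hmu ε (by linarith)) (hp _).le hx2.le
    linarith
  have hT0 : 0 ≤ T := by linarith
  have hTA2 : T ^ A2 ≤ T ^ (A2 + A4) := pow_le_pow_right₀ hT (by omega)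
  have hTA4 : T ^ A4 ≤ T ^ (A2 + A4) := pow_le_pow_right₀ hT (by omega)
  have hTA : 1 ≤ T ^ (A2 + A4) := one_le_pow₀ hT
  have t4 : m * n * (C2 * T ^ A2 * (m * n) * Real.sqrt Q) ≤
      7 * C2 * (T ^ (A2 + A4) * (x ^ 2 * x ^ (-μ))) := by
    have h4 : Real.sqrt Q ≤ 7 * x ^ (-μ) := by
      refine hsq.trans (mul_le_mul_of_nonneg_left (hmu (ε / 2) (by linarith)) (by norm_num))
    calc m * n * (C2 * T ^ A2 * (m * n) * Real.sqrt Q) =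
          (C2 * T ^ A2) * (((m * n) ^ 2) * Real.sqrt Q) := by ring
      _ ≤ (C2 * T ^ (A2 + A4)) * (x ^ 2 * (7 * x ^ (-μ))) :=
          mul_le_mul (mul_le_mul_of_nonneg_left hTA2 hC2.le)
            (mul_le_mul hmn2 h4 (Real.sqrt_nonneg _) hx2.le) (by positivity) (by positivity)
      _ = _ := by ring
  have t6 : m * n * (C4 * T ^ A4 * (m * n) * Real.sqrt Q') ≤
      8 * C4 * (T ^ (A2 + A4) * (x ^ 2 * x ^ (-μ))) := by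
    have h4 : Real.sqrt Q' ≤ 8 * x ^ (-μ) := by
      refine hsq'.trans (mul_le_mul_of_nonneg_left (hmu (ε / 4) hμε) (by norm_num))
    calc m * n * (C4 * T ^ A4 * (m * n) * Real.sqrt Q') =
          (C4 * T ^ A4) * (((m * n) ^ 2) * Real.sqrt Q') := by ring
      _ ≤ (C4 * T ^ (A2 + A4)) * (x ^ 2 * (8 * x ^ (-μ))) :=
          mul_le_mul (mul_le_mul_of_nonneg_left hTA4 hC4.le)
            (mul_le_mul hmn2 h4 (Real.sqrt_nonneg _) hx2.le) (by positivity) (by positivity)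
      _ = _ := by ring
  have h5 : 1 * (x ^ 2 * x ^ (-μ)) ≤ T ^ (A2 + A4) * (x ^ 2 * x ^ (-μ)) :=
    mul_le_mul_of_nonneg_right hTA hZ.le
  calc _ ≤ x ^ 2 * x ^ (-μ) + x ^ 2 * x ^ (-μ) + 4 * (x ^ 2 * x ^ (-μ)) +
        18 * (x ^ 2 * x ^ (-μ)) + 7 * C2 * (T ^ (A2 + A4) * (x ^ 2 * x ^ (-μ))) +
        8 * C4 * (T ^ (A2 + A4) * (x ^ 2 * x ^ (-μ))) :=
        add_le_add (add_le_add (add_le_add (add_le_add (add_le_add t1 t2) t3) t5) t4) t6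
    _ = 24 * (1 * (x ^ 2 * x ^ (-μ))) + 7 * C2 * (T ^ (A2 + A4) * (x ^ 2 * x ^ (-μ))) +
        8 * C4 * (T ^ (A2 + A4) * (x ^ 2 * x ^ (-μ))) := by ring
    _ ≤ 24 * (T ^ (A2 + A4) * (x ^ 2 * x ^ (-μ))) +
        7 * C2 * (T ^ (A2 + A4) * (x ^ 2 * x ^ (-μ))) +
        8 * C4 * (T ^ (A2 + A4) * (x ^ 2 * x ^ (-μ))) := by linarith
    _ = _ := by ring

/-- the last step -/
private theorem Bbt_fin (μ e x C1 K C3 Sm W : ℝ) (A2 A3 : ℕ) (hx : 1 ≤ x) (hC1 : 0 < C1)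
    (hK : 0 < K) (hC3 : 0 < C3) (hμ0 : 0 < μ) (he0 : 0 < e)
    (he : e * (2 * ((A3 : ℝ) + A2 + 1)) = μ)
    (main : Sm ^ 2 ≤ C3 * (C1 * x ^ e) ^ A3 * W)
    (hW : W ≤ K * (C1 * x ^ e) ^ A2 * (x ^ 2 * x ^ (-μ))) :
    Sm ≤ Real.sqrt (C3 * K * C1 ^ (A3 + A2)) * x ^ (1 - μ / 4) := by
  have hx0 : 0 < x := by linarith
  have hp : ∀ a : ℝ, 0 < x ^ a := fun a => Real.rpow_pos_of_pos hx0 a
  have hT0 : 0 < C1 * x ^ e := mul_pos hC1 (hp _)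
  have hTpow : (C1 * x ^ e) ^ (A3 + A2) ≤ C1 ^ (A3 + A2) * x ^ (μ / 2) := by
    rw [mul_pow]
    refine mul_le_mul_of_nonneg_left ?_ (by positivity)
    rw [← Real.rpow_natCast (x ^ e), ← Real.rpow_mul hx0.le]
    refine Bbt_L hx _ _ ?_
    push_cast
    linarith
  have hK0 : 0 < C3 * K * C1 ^ (A3 + A2) := by positivity
  have hfin : Sm ^ 2 ≤ (Real.sqrt (C3 * K * C1 ^ (A3 + A2)) * x ^ (1 - μ / 4)) ^ 2 := by
    have h4 : (Real.sqrt (C3 * K * C1 ^ (A3 + A2)) * x ^ (1 - μ / 4)) ^ 2 =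
        (C3 * K * C1 ^ (A3 + A2)) * (x ^ 2 * (x ^ (μ / 2) * x ^ (-μ))) := by
      rw [mul_pow, Real.sq_sqrt hK0.le, sq (x ^ (1 - μ / 4)),
        Bbt_E hx0 _ _ (2 - μ / 2) (by ring), Bbt_E hx0 _ _ (-(μ / 2)) (by ring),
        ← Real.rpow_natCast x 2, Bbt_E hx0 _ _ (2 - μ / 2) (by norm_num; ring)]
    rw [h4]
    calc Sm ^ 2 ≤ C3 * (C1 * x ^ e) ^ A3 * W := main
      _ ≤ C3 * (C1 * x ^ e) ^ A3 * (K * (C1 * x ^ e) ^ A2 * (x ^ 2 * x ^ (-μ))) :=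
          mul_le_mul_of_nonneg_left hW (by positivity)
      _ = C3 * K * (x ^ 2 * x ^ (-μ)) * (C1 * x ^ e) ^ (A3 + A2) := by
          rw [pow_add]
          ring
      _ ≤ C3 * K * (x ^ 2 * x ^ (-μ)) * (C1 ^ (A3 + A2) * x ^ (μ / 2)) :=
          mul_le_mul_of_nonneg_left hTpow (by have := hp (-μ); positivity)
      _ = _ := by ring
  exact (abs_le_of_sq_le_sq' hfin (by positivity)).2

/-- the numbers `Y0` and `H` -/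
private theorem Bbt_YH (δ κ ε x m r s Y H : ℝ) (hx : 1 ≤ x) (hε : 0 < ε)
    (hq : ∀ a : ℝ, ε ≤ a → 100 ≤ x ^ a) (hm0 : 0 < m)
    (hyy : 0 < yy δ κ ε - ε) (he : ε ≤ (1 : ℝ) / 3 - 3 * ε - κ - 2 * yy δ κ ε)
    (G2 : r * s ^ 2 ≤ 2 * x ^ (yy δ κ ε - ε) * m)
    (hr13 : x ^ ((1 : ℝ) / 3 - 2 * ε - κ) ≤ 2 * r)
    (hYle : Y ≤ 4 * (r * s ^ 2) / m + 1) (hHle : H ≤ x ^ (2 * yy δ κ ε + ε) + 1) :
    Y ≤ x ^ (yy δ κ ε) ∧ H ≤ 2 * x ^ (2 * yy δ κ ε + ε) ∧ 2 * H < r := by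
  have hx0 : 0 < x := by linarith
  have hp : ∀ a : ℝ, 0 < x ^ a := fun a => Real.rpow_pos_of_pos hx0 a
  have hYx : Y ≤ x ^ (yy δ κ ε) := by
    have h4 : 4 * (r * s ^ 2) / m ≤ 8 * x ^ (yy δ κ ε - ε) := by
      rw [div_le_iff₀ hm0]
      linarith
    have h5 : 1 ≤ x ^ (yy δ κ ε - ε) := Real.one_le_rpow hx hyy.le
    have h6 : x ^ (yy δ κ ε) = x ^ (yy δ κ ε - ε) * x ^ ε := (Bbt_E hx0 _ _ _ (by ring)).symm
    have h8 := hq ε le_rfl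
    have h7 : x ^ (yy δ κ ε - ε) * 9 ≤ x ^ (yy δ κ ε - ε) * x ^ ε :=
      mul_le_mul_of_nonneg_left (by linarith) (hp _).le
    rw [h6]
    linarith
  have hH2 : H ≤ 2 * x ^ (2 * yy δ κ ε + ε) := by
    have h5 : 1 ≤ x ^ (2 * yy δ κ ε + ε) := Real.one_le_rpow hx (by linarith)
    linarith
  refine ⟨hYx, hH2, ?_⟩
  have h4 : x ^ ((1 : ℝ) / 3 - 2 * ε - κ) = x ^ (2 * yy δ κ ε + ε) *
      x ^ ((1 : ℝ) / 3 - 3 * ε - κ - 2 * yy δ κ ε) := (Bbt_E hx0 _ _ _ (by ring)).symm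
  have h5 := hq _ he
  have h6 : x ^ (2 * yy δ κ ε + ε) * 100 ≤ 2 * r := by
    refine le_trans ?_ hr13
    rw [h4]
    exact mul_le_mul_of_nonneg_left h5 (hp _).le
  have := hp (2 * yy δ κ ε + ε)
  linarith

/-- `2 S ≤ N` -/
private theorem Bbt_SN (δ κ ε x n s : ℝ) (hx : 1 ≤ x) (hn0 : 0 < n)
    (h100 : 100 ≤ x ^ (1 / 6 - δ - κ - 3 * ε)) (F2 : x ^ ((1 : ℝ) / 3 - ε) ≤ n)
    (G5 : s * n ≤ 2 * x ^ (1 / 2 + δ + ε + κ)) : 2 * s ≤ n := by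
  have hx0 : 0 < x := by linarith
  have hp : ∀ a : ℝ, 0 < x ^ a := fun a => Real.rpow_pos_of_pos hx0 a
  have h4 : 4 * x ^ (1 / 2 + δ + ε + κ) ≤ x ^ ((1 : ℝ) / 3 - ε) * x ^ ((1 : ℝ) / 3 - ε) := by
    have h9 : x ^ ((1 : ℝ) / 3 - ε) * x ^ ((1 : ℝ) / 3 - ε) =
        x ^ (1 / 2 + δ + ε + κ) * x ^ (1 / 6 - δ - κ - 3 * ε) := by
      rw [← Real.rpow_add hx0, ← Real.rpow_add hx0]
      exact congrArg _ (by ring)
    rw [h9]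
    calc 4 * x ^ (1 / 2 + δ + ε + κ) = x ^ (1 / 2 + δ + ε + κ) * 4 := by ring
      _ ≤ _ := mul_le_mul_of_nonneg_left (by linarith) (hp _).le
  have h6 : x ^ ((1 : ℝ) / 3 - ε) * x ^ ((1 : ℝ) / 3 - ε) ≤ n * n :=
    mul_le_mul F2 F2 (hp _).le hn0.le
  have h7 : (2 * s) * n ≤ n * n := by
    calc (2 * s) * n = 2 * (s * n) := by ring
      _ ≤ 2 * (2 * x ^ (1 / 2 + δ + ε + κ)) := by linarith
      _ ≤ n * n := by linarith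
  exact le_of_mul_le_mul_right h7 hn0

/-- Module Bbt: one block, Type II. -/
theorem tBbt (h1 : MS.DspStmt) (h2 : ML.Bt2Stmt) (h2e : MS.BetStmt) (h3 : MI.BtaStmt) : BbtStmt := by
  intro δ κ ε κ0 hPar hκ0 hκ0κ
  obtain ⟨hδ, hκ, hε, hε1, hp1⟩ := hPar
  obtain ⟨C3, hC3, A3, hD⟩ := h1
  obtain ⟨C2, hC2, A2, hT⟩ := h2
  obtain ⟨C4, hC4, A4, hTe⟩ := h2e
  obtain ⟨μ, hμ0, hμε, hμκ⟩ : ∃ μ : ℝ, 0 < μ ∧ μ ≤ ε / 4 ∧ μ ≤ κ0 :=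
    ⟨min (ε / 4) κ0, lt_min (by linarith) hκ0, min_le_left _ _, min_le_right _ _⟩
  have hA : (0 : ℝ) < 2 * ((A3 : ℝ) + ((A2 + A4 : ℕ) : ℝ) + 1) := by positivity
  obtain ⟨e, he0, he⟩ : ∃ e : ℝ, 0 < e ∧ e * (2 * ((A3 : ℝ) + ((A2 + A4 : ℕ) : ℝ) + 1)) = μ :=
    ⟨μ / (2 * ((A3 : ℝ) + ((A2 + A4 : ℕ) : ℝ) + 1)), div_pos hμ0 hA, div_mul_cancel₀ _ hA.ne'⟩
  obtain ⟨C1, hC1, hTau⟩ := h3 e 30 he0 (by norm_num)
  have hC1p : 0 < C1 := by linarith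
  have hK : 0 < 24 + 7 * C2 + 8 * C4 := by positivity
  refine ⟨μ / 4, Real.sqrt (C3 * (24 + 7 * C2 + 8 * C4) * C1 ^ (A3 + (A2 + A4))),
    (100 : ℝ) ^ (2 / ε), by linarith, ?_⟩
  intro x A b M N R S P f g hx hBlk F10 hPr hf hg
  obtain ⟨hNM, F2, F3, F4, hS, F6, F7, F8, F9⟩ := hBlk
  -- basic facts about x
  have hx1 : 1 ≤ x := le_trans (Real.one_le_rpow (by norm_num) (by positivity)) hx
  have hx0 : 0 < x := by linarith only [hx1]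
  have hp : ∀ a : ℝ, 0 < x ^ a := fun a => Real.rpow_pos_of_pos hx0 a
  have hq2 : 100 ≤ x ^ (ε / 2) := by
    have h4 : ((100 : ℝ) ^ (2 / ε)) ^ (ε / 2) = 100 := by
      rw [← Real.rpow_mul (by norm_num), show 2 / ε * (ε / 2) = 1 by field_simp, Real.rpow_one]
    rw [← h4]
    exact Real.rpow_le_rpow (by positivity) hx (by linarith only [hε])
  have hq : 100 ≤ x ^ ε := hq2.trans (Bbt_L hx1 _ _ (by linarith only [hε]))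
  have hq' : ∀ a : ℝ, ε ≤ a → 100 ≤ x ^ a := fun a ha => hq.trans (Bbt_L hx1 _ _ ha)
  have hx100 : 100 ≤ x := by
    have := hq' 1 (by linarith only [hε1])
    rwa [Real.rpow_one] at this
  -- the real numbers
  have hn100 : (100 : ℝ) ≤ N := (hq' _ (by linarith only [hε1])).trans F2
  have hn0 : (0 : ℝ) < N := by linarith only [hn100]
  have hmn : (N : ℝ) ≤ M := by exact_mod_cast hNM
  have hm0 : (0 : ℝ) < M := by linarith only [hmn, hn0]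
  have hs1 : (1 : ℝ) ≤ S := by exact_mod_cast hS
  have hs0 : (0 : ℝ) < S := by linarith only [hs1]
  have hr13 : x ^ ((1 : ℝ) / 3 - 2 * ε - κ) ≤ 2 * R := by
    calc x ^ ((1 : ℝ) / 3 - 2 * ε - κ) = x ^ ((1 : ℝ) / 3 - ε) * x ^ (-ε - κ) :=
          (Bbt_E hx0 _ _ _ (by ring)).symm
      _ ≤ N * x ^ (-ε - κ) := mul_le_mul_of_nonneg_right F2 (hp _).le
      _ ≤ _ := F7
  have hr50 : (50 : ℝ) ≤ R := by
    have := hq' ((1 : ℝ) / 3 - 2 * ε - κ) (by linarith only [hε, hδ, hp1, hκ])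
    linarith only [this, hr13]
  have hr0 : (0 : ℝ) < R := by linarith only [hr50]
  have hnx : (N : ℝ) ≤ x ^ ((1 : ℝ) / 2) := by
    rw [← Real.sqrt_eq_rpow]
    refine Real.le_sqrt_of_sq_le ?_
    calc (N : ℝ) ^ 2 = N * N := sq _
      _ ≤ M * N := mul_le_mul_of_nonneg_right hmn hn0.le
      _ ≤ x := F4
  have hrn : (R : ℝ) ≤ N := by
    refine F6.trans ?_
    calc (N : ℝ) * x ^ (-ε) ≤ N * 1 :=
          mul_le_mul_of_nonneg_left (Real.rpow_le_one_of_one_le_of_nonpos hx1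
            (by linarith only [hε])) hn0.le
      _ = N := mul_one _
  have G2 := Bbt_G2 δ κ ε x M N R S hx1 hr0 hm0 hs0 F3 F7 F8
  have G5 := Bbt_G5 δ κ ε x N R S hx1 hs0 F7 F8
  have G6 := Bbt_G6 ε x N R S hx1 hs0 hnx F6 F9
  have G8 := Bbt_G8 ε x N R S hx1 hs0 hnx F6 F9
  -- Y0 and H
  obtain ⟨Y0, hY1, hYle, hYge⟩ : ∃ Y0 : ℕ, 1 ≤ Y0 ∧
      (Y0 : ℝ) ≤ 4 * ((R : ℝ) * (S : ℝ) ^ 2) / M + 1 ∧
      4 * ((R : ℝ) * (S : ℝ) ^ 2) ≤ M * Y0 := by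
    have hYpos : 0 < 4 * ((R : ℝ) * (S : ℝ) ^ 2) / M := by positivity
    refine ⟨⌈4 * ((R : ℝ) * (S : ℝ) ^ 2) / M⌉₊, Nat.one_le_ceil_iff.2 hYpos,
      (Nat.ceil_lt_add_one hYpos.le).le, ?_⟩
    have h4 : 4 * ((R : ℝ) * (S : ℝ) ^ 2) / M ≤ ⌈4 * ((R : ℝ) * (S : ℝ) ^ 2) / M⌉₊ :=
      Nat.le_ceil _
    rw [div_le_iff₀ hm0] at h4
    linarith only [h4]
  obtain ⟨H, hH1, hHge, hHle⟩ : ∃ H : ℕ, 1 ≤ H ∧ x ^ (2 * yy δ κ ε + ε) ≤ H ∧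
      (H : ℝ) ≤ x ^ (2 * yy δ κ ε + ε) + 1 :=
    ⟨⌈x ^ (2 * yy δ κ ε + ε)⌉₊, Nat.one_le_ceil_iff.2 (hp _), Nat.le_ceil _,
      (Nat.ceil_lt_add_one (hp _).le).le⟩
  have hyyd : yy δ κ ε = 2 * δ + κ + 3 * ε := rfl
  obtain ⟨hYx, hH2, h2Hr⟩ := Bbt_YH δ κ ε x M R S Y0 H hx1 hε hq' hm0
    (by rw [hyyd]; linarith only [hδ, hκ, hε]) (by rw [hyyd]; linarith only [hδ, hκ, hε, hp1])
    G2 hr13 hYle hHle
  have h2H : 2 * H < R := by exact_mod_cast h2Hr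
  -- sizes
  have hrs : (R : ℝ) * S ≤ x := by
    refine F8.trans ?_
    have := Bbt_L hx1 (1 / 2 + δ) 1 (by linarith only [hδ, hp1, hκ, hε])
    rwa [Real.rpow_one] at this
  have hsx : (S : ℝ) ≤ x := by
    refine le_trans ?_ hrs
    have : 1 * (S : ℝ) ≤ R * S := mul_le_mul_of_nonneg_right (by linarith only [hr50]) hs0.le
    linarith only [this]
  have hy1 : x ^ (2 * yy δ κ ε + ε) ≤ x := by
    have := Bbt_L hx1 (2 * yy δ κ ε + ε) 1 (by rw [hyyd]; linarith only [hδ, hp1, hκ, hε])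
    rwa [Real.rpow_one] at this
  have hy2 : x ^ (yy δ κ ε) ≤ x := by
    have := Bbt_L hx1 (yy δ κ ε) 1 (by rw [hyyd]; linarith only [hδ, hp1, hκ, hε])
    rwa [Real.rpow_one] at this
  obtain ⟨hD1, hD2⟩ := Bbt_sz x M N R S H Y0 hx100 hm0 hn0 hr0 hs0 F4 hmn hrs hsx
    (Nat.cast_nonneg _) (Nat.cast_nonneg _) (by linarith only [hH2, hy1]) (hYx.trans hy2)
  -- the bound B
  have hTau' : Tau (x ^ (30 : ℝ)) (C1 * x ^ e) := hTau x hx1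
  have hT1 : 1 ≤ C1 * x ^ e := hTau'.1
  have hT0 : 0 < C1 * x ^ e := lt_of_lt_of_le one_pos hT1
  have hRN : R ≤ N := by exact_mod_cast hrn
  have hR1 : 1 ≤ R := by
    have : (1 : ℝ) ≤ R := by linarith only [hr50]
    exact_mod_cast this
  have hN1 : 1 ≤ N := by
    have : (1 : ℝ) ≤ N := by linarith only [hn100]
    exact_mod_cast this
  have hM8 : 8 ≤ M := by
    have : (8 : ℝ) ≤ M := by linarith only [hn100, hmn]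
    exact_mod_cast this
  have hYnat : 4 * (R * S ^ 2) ≤ M * Y0 := by exact_mod_cast hYge
  have hz1 : 1 ≤ x ^ κ0 := Real.one_le_rpow hx1 hκ0.le
  have h2SN : 2 * S ≤ N := by
    have h8 := Bbt_SN δ κ ε x N S hx1 hn0
      (hq' (1 / 6 - δ - κ - 3 * ε) (by linarith only [hδ, hp1, hκ, hε])) F2 G5
    exact_mod_cast h8
  have hKMN : R * S ^ 2 ≤ M * N := by
    have h4 : x ^ (yy δ κ ε) ≤ N :=
      (Bbt_L hx1 _ _ (by rw [hyyd]; linarith only [hδ, hp1, hκ, hε])).trans F2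
    have h5 : (M : ℝ) * Y0 ≤ M * N := mul_le_mul_of_nonneg_left (hYx.trans h4) hm0.le
    have h6 : 0 ≤ (R : ℝ) * (S : ℝ) ^ 2 := by positivity
    have h7 : (R : ℝ) * (S : ℝ) ^ 2 ≤ M * N := by linarith only [h5, h6, hYge]
    exact_mod_cast h7
  -- the number z1
  obtain ⟨z1, hz1a, hz1b, hz1c⟩ : ∃ z1 : ℝ, 1 ≤ z1 ∧ 4 * z1 ≤ S ∧
      1 / z1 ^ 2 ≤ x ^ (-(yy δ κ ε + 2 * ε)) + 16 / (S : ℝ) ^ 2 := by
    have hw : 1 ≤ x ^ ((yy δ κ ε + 2 * ε) / 2) :=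
      Real.one_le_rpow hx1 (by rw [hyyd]; linarith only [hδ, hκ, hε])
    have hw2 : 1 / (x ^ ((yy δ κ ε + 2 * ε) / 2)) ^ 2 = x ^ (-(yy δ κ ε + 2 * ε)) := by
      rw [sq, Bbt_E hx0 _ _ (yy δ κ ε + 2 * ε) (by ring), Real.rpow_neg hx0.le, one_div]
    have hw3 : 0 < x ^ (-(yy δ κ ε + 2 * ε)) := hp _
    have hs3 : 0 ≤ 16 / (S : ℝ) ^ 2 := by positivity
    refine ⟨min (x ^ ((yy δ κ ε + 2 * ε) / 2)) (S / 4), le_min hw (by linarith only [G8, hq2]), ?_, ?_⟩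
    · have := min_le_right (x ^ ((yy δ κ ε + 2 * ε) / 2)) ((S : ℝ) / 4)
      linarith only [this]
    · rcases min_choice (x ^ ((yy δ κ ε + 2 * ε) / 2)) ((S : ℝ) / 4) with h | h
      · rw [h, hw2]
        linarith only [hs3]
      · rw [h]
        have : 1 / ((S : ℝ) / 4) ^ 2 = 16 / (S : ℝ) ^ 2 := by
          rw [div_pow, one_div_div]
          norm_num
        rw [this]
        linarith only [hw3]
  have hQ := Bbt_Q δ κ ε x M N R S Y0 hx1 hm0 hr0 hs0 (Nat.cast_nonneg _) hYx hYle hmn F6 hr13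
    (by rw [hyyd]; linarith only [hδ, hp1, hκ, hε])
    (Bbt_G7 δ κ ε x N R S Y0 hx1 hε hn0 hs0 (Nat.cast_nonneg _) hYx hrn hp1 hδ G5 F10) G6
  obtain ⟨hsq, hsq'⟩ := Bbt_rt ε x S _ hx1 hε hs0 hQ G8
  have hW := Bbt_sum δ κ κ0 ε μ x M N R S H _ _ C2 C4 (C1 * x ^ e) z1 A2 A4 hx1 hm0 hn0 hr0 hs0
    hμ0 hμε hμκ hC2 hC4 hmn (pow_le_pow_left₀ (by positivity) F4 2) F6 G2 hHge hT1 hz1c hsq hsq'
  refine Bbt_fin μ e x C1 (24 + 7 * C2 + 8 * C4) C3 _ _ (A2 + A4) A3 hx1 hC1p hK hC3 hμ0 he0 he ?_ hW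
  have hD2' : 100 * (R : ℝ) ^ 2 * (S : ℝ) ^ 4 * (N : ℝ) ^ 2 * (2 * H + Y0 : ℝ) ^ 2 ≤
      x ^ (30 : ℝ) := by
    have h4 : 0 ≤ (R : ℝ) ^ 2 * (S : ℝ) ^ 4 * (N : ℝ) ^ 2 * (2 * H + Y0 : ℝ) ^ 2 := by positivity
    linarith only [hD2, h4]
  have hNz : (N : ℝ) ≤ M := hmn
  refine hD (x ^ (30 : ℝ)) (C1 * x ^ e) (x ^ κ0) z1 _ _ A b R S M N H P f g hTau' hz1 hz1a hz1b
    (by positivity) (by positivity) hN1 hNM hM8 hH1 hRN h2SN h2H hD1 hKMN hPr hf hg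
    (fun a hCp k γ ω hγ hω => hT (x ^ (30 : ℝ)) (C1 * x ^ e) (x ^ κ0) 1 a A b k R S M N H Y0
      P γ ω hTau' hR1 hS (by omega) hN1 hY1 hD2' hYnat hγ hω hPr.1 hCp) ?_
  intro e' a ρ hze hez hCp k γ ω hγ hω
  have he1 : 1 ≤ e' := by
    have : (1 : ℝ) ≤ e' := hz1.trans hze.le
    exact_mod_cast this
  have he4 : 4 * e' ≤ S := by
    have : 4 * (e' : ℝ) ≤ S := by linarith only [hez, hz1b]
    exact_mod_cast this
  have h := hTe (x ^ (30 : ℝ)) (C1 * x ^ e) (x ^ κ0) a ρ A b e' k R S M N H Y0 P γ ω hTau' he1 he4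
    (by omega) (by omega) hR1 hN1 hY1 hD2 hYnat hγ hω hPr hCp
  refine h.trans (le_of_eq ?_)
  ring

end Pool.Agent.Lib.MT
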