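import Pool.Agent.Lib.MS.AllM
import Pool.Agent.Lib.MT.Bbo
import Pool.Agent.Lib.MT.Bbt
import Pool.Agent.Lib.MT.Bdr
import Pool.Agent.Lib.MT.Bds
import Pool.Agent.Lib.MT.Bfi

/-! MP_00e23e_nt, directory Lib/MT: THEOREM MI (version 10), without hypotheses. -/

namespace Pool.Agent.Lib.MT

open Pool.Agent.Lib.TB

/-- Chapter B. -/
theorem tBAll : BAllStmt :=
  tBfi (tBds (tBdr (tBbo MS.tDAll (ML.tBt1 ML.tT1All ML.tBdh) (MS.tBeo MS.tT1eAll MS.tBdh) MI.tBta)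
    (tBbt MS.tDAll (ML.tBt2 ML.tT2All ML.tBdh) (MS.tBet MS.tT2eAll MS.tBdh) MI.tBta))
    MK.tFsp MI.tBta) MI.tBid (MN.tBrm MI.tBph) (ML.tBlg MI.tLrgAll) MI.tLrgAll MI.tBta

/-- THEOREM MI, version 10. -/
theorem tMI : MIStmt := by
  intro δ τ κ σ ω hδ hτ hτ' hκ h1 h3 h4
  obtain ⟨ε, hε0, hε1, hB⟩ := tBAll δ τ κ σ ω hδ hτ hτ' hκ h1 h3 h4
  have hA : MS.CoreStmt (1 / 2 + δ) τ κ σ ω :=
    MS.tAAll (1 / 2 + δ) τ κ σ ω ε hε0 hε1 (by linarith) hτ hτ' hκ (by linarith) hB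
  exact MS.tFAll (1 / 2 + δ) τ κ σ ω (by linarith) hτ hτ' hκ (by linarith) hA

end Pool.Agent.Lib.MT
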