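import Pool.Agent.Lib.MS.SpecB

/-!
MP_00e23e_nt, directory Lib/MT (architect helper34; THEOREM MI, version 10): as version 9 (Lib/MS), with 84 δ + 60 κ < 1 in place
of 86 δ + 60 κ < 1 and ω > 10 δ + 5 κ. Type I for N ≤ x^(1/2 - sh), sh = 2δ + 2κ + 10ε, with the divisor r0 of r of size
Λ = max (x^(4y+8ε)) (x^(8y+16ε)/(V S^2)). Chapters D, T, A, F are those of Lib/MS; only Bbo, Bbt, Bdr, Bds, Bfi change.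
RULES. Module X: file Pool/Agent/Lib/MT/X.lean, first line `import Pool.Agent.Lib.MT.Stm`, then
`namespace Pool.Agent.Lib.MT` and `open Finset Pool.Agent.Lib.EH3 Pool.Agent.Lib.TB Pool.Agent.Results.MP_00e23e_nt Pool.Agent.Lib.MI`
(MT.Par, MT.BboStmt, ... win over those of MI; write MS.X for those of Lib/MS: MS.Pr, MS.DspStmt, MS.Nst, ..., and MI.X, MK.X,
ML.X, MN.X, MQ.X), private lemmas with names starting with X_, final theorem `theorem tX (h1 : AStmt) ... : XStmt`; the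
statements listed under Uses are hypotheses, in this order. MODEL file: copy it and change it. Never use congr!. Below 60 s.
-/

namespace Pool.Agent.Lib.MT

open Finset Pool.Agent.Lib.EH3 Pool.Agent.Lib.TB Pool.Agent.Results.MP_00e23e_nt Pool.Agent.Lib.MI

/-- the parameters -/
def Par (δ κ ε : ℝ) : Prop := 0 ≤ δ ∧ 0 < κ ∧ 0 < ε ∧ ε < 1 / 100 ∧ 84 * δ + 60 * κ + 400 * ε ≤ 1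

/-- Type I for N ≤ x^(1/2 - sh), Type II above -/
noncomputable def sh (δ κ ε : ℝ) : ℝ := 2 * δ + 2 * κ + 10 * ε

/-- the size of the divisor r0 of r in Type I -/
noncomputable def La (δ κ ε x V S : ℝ) : ℝ :=
  max (x ^ (4 * yy δ κ ε + 8 * ε)) (x ^ (8 * yy δ κ ε + 16 * ε) / (V * S ^ 2))

/-- THEOREM MI, version 10 -/
def MIStmt : Prop := ∀ δ τ κ σ ω : ℝ, 0 ≤ δ → 0 ≤ τ → τ ≤ 1 / 3 → 0 < κ → 84 * δ + 60 * κ < 1 →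
  σ < 1 / 3 → 10 * δ + 5 * κ < ω → MS.MIAt (1 / 2 + δ) τ κ σ ω

/-- Chapter B: to prove -/
def BAllStmt : Prop := ∀ δ τ κ σ ω : ℝ, 0 ≤ δ → 0 ≤ τ → τ ≤ 1 / 3 → 0 < κ → 84 * δ + 60 * κ < 1 →
  σ < 1 / 3 → 10 * δ + 5 * κ < ω → ∃ ε : ℝ, 0 < ε ∧ ε < 1 / 100 ∧ MS.BlStmt (1 / 2 + δ) τ κ σ ω ε

/-- Module Bbo (theorem tBbo). Uses: MS.DspStmt, ML.Bt1Stmt, MS.BeoStmt, MI.BtaStmt. MODEL: Lib/MS/Bbo.lean (Lib/ML/Bbo.lean).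
Proof. y = yy = 2δ+κ+3ε. As in the MODEL with sh in place of sg, Λ = La δ κ ε x V S (real, V, S the naturals) in place of x^(4y+8ε): L = ⌊Λ⌋, L' = ⌊Λ x^κ⌋, Λ/2 ≤ L ≤ Λ. x^(sh+ε/2) ≤ 4 S. Q = x^(-(4y+8ε)). New estimates: (1) 1/L ≤ 2/Λ ≤ 2 Q. (2) L V S^2 ≥ (Λ/2) V S^2 ≥ x^(8y+16ε)/2,
so 1/((L V)^(1/2) S) ≤ 2 Q. (2') the term with S/(V Y0): 1/(L^(1/2) V (S Y0)^(1/2)) ≤ 8 x^(-(2y+4ε)-(y+4ε)-(sh+ε/2)/2-y/2) ≤ 8 Q (L ≥ x^(4y+8ε)/2, V ≥ x^(y+4ε)/2, S ≥ x^(sh+ε/2)/4, Y0 ≥ x^y, sh ≥ y). (3) (L' V)^(1/2) S/N ≤ x^(κ/2) (Λ V)^(1/2) S/N: if Λ = x^(4y+8ε): as in the MODEL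
≤ 2 x^(5y/2+2κ+δ+9ε-1/6) ≤ 2 Q (V ≤ x^(y+κ+4ε), S N ≤ 2 x^(1/2+δ+ε+κ), N ≥ x^(1/3-ε); 14δ + 8.5κ + 36.5ε ≤ 1/6 by Par); if Λ = x^(8y+16ε)/(V S^2): = x^(4y+8ε+κ/2)/N ≤ Q (16δ + 8.5κ + 41ε ≤ 1/3 by Par). So the radicand is ≤ C x^(-4ε) as in the MODEL. Size condition: Λ ≤ x^(8y+16ε) ≤ x (V S^2 ≥ 1). The rest
(z1 = x^((y+2ε)/2), 4 z1 ≤ S since sh ≥ (y+2ε)/2 + ε, Dsp, Beo) is as in the MODEL; the inequalities between exponents follow from Par (84δ + 60κ + 400ε ≤ 1). Squarefree from MS.Pr. -/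
def BboStmt : Prop := ∀ δ κ ε κ0 : ℝ, Par δ κ ε → 0 < κ0 → κ0 < κ →
  ∃ η C x0 : ℝ, 0 < η ∧
  ∀ (x : ℝ) (A : ℕ → ℕ → ℤ) (b : ℕ → ℤ) (M N R S V : ℕ) (P : Finset (ℕ × ℕ)) (f g : ℕ → ℂ), x0 ≤ x →
  Blk δ κ ε x M N R S →
  (N : ℝ) ≤ x ^ (1 / 2 - sh δ κ ε) → x ^ (yy δ κ ε + 4 * ε) ≤ 2 * V → (V : ℝ) ≤ x ^ (yy δ κ ε + κ + 4 * ε) →
  MS.Pr A b R S (x ^ κ0) P → (∀ w ∈ P, (∃ v : ℕ, v ∣ w.2 ∧ V < v ∧ v ≤ 2 * V) ∧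
    ∃ r0 : ℕ, r0 ∣ w.1 ∧ La δ κ ε x V S < r0 ∧ (r0 : ℝ) ≤ La δ κ ε x V S * x ^ κ) →
  (∀ m, ‖f m‖ ≤ 1) → (∀ n, ‖g n‖ ≤ 1) →
  ∑ w ∈ P, ‖∑ m ∈ Ioc M (2 * M), ∑ n ∈ Ioc N (2 * N), f m * g n * Dl (A w.1 w.2) w.1 w.2 (m * n)‖ ≤ C * x ^ (1 - η)

/-- Module Bbt (theorem tBbt). Uses: MS.DspStmt, ML.Bt2Stmt, MS.BetStmt, MI.BtaStmt. MODEL: Lib/MS/Bbt.lean (Lib/ML/Bbt.lean).
Proof. As there with sh in place of sg: R^(1/2) Y0^2 S^4/N ≤ 16 x^(2y+4δ+4ε+4κ-1/4+(9/2) sh) ≤ 16 x^(-ε) (8δ + 6κ + 10ε + 4.5 sh = 17δ + 15κ + 55ε ≤ 1/4 - ε by Par). -/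
def BbtStmt : Prop := ∀ δ κ ε κ0 : ℝ, Par δ κ ε → 0 < κ0 → κ0 < κ →
  ∃ η C x0 : ℝ, 0 < η ∧
  ∀ (x : ℝ) (A : ℕ → ℕ → ℤ) (b : ℕ → ℤ) (M N R S : ℕ) (P : Finset (ℕ × ℕ)) (f g : ℕ → ℂ), x0 ≤ x →
  Blk δ κ ε x M N R S → x ^ (1 / 2 - sh δ κ ε) ≤ (N : ℝ) → MS.Pr A b R S (x ^ κ0) P →
  (∀ m, ‖f m‖ ≤ 1) → (∀ n, ‖g n‖ ≤ 1) →
  ∑ w ∈ P, ‖∑ m ∈ Ioc M (2 * M), ∑ n ∈ Ioc N (2 * N), f m * g n * Dl (A w.1 w.2) w.1 w.2 (m * n)‖ ≤ C * x ^ (1 - η)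

/-- Module Bdr (theorem tBdr; all blocks). Uses: BboStmt, BbtStmt. MODEL: Lib/MS/Bdr.lean.
Proof. As there with sh in place of sg. Type I: s > x^(sh+ε/2) ≥ x^(yy+κ+4ε) (W for v), 2 S ≥ s. For the block (R, S, V) (V = 2^i < v ≤ 2V, so 2V ≥ x^(yy+4ε); S from the s-block, 2 S ≥ s > x^(sh+ε/2)): Λ = La δ κ ε x V S ≤ max (x^(4y+8ε)) (8 x^(8y+16ε-(y+4ε)-2(sh+ε/2))) ≤ x^(10δ+4κ+20ε) for large x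
(8y+16ε-(y+4ε)-2 sh-ε = 10δ+3κ+12ε). The divisor r0 (it may depend on q): Dn for r with W = Λ x^κ ≤ x^(10δ+5κ+20ε) ≤ x^ω, W ≤ r (r > x^(1/3-2ε-κ), 10δ+6κ+22ε ≤ 1/3 by Par): r0 ∣ r, r0 ≤ W < r0 x^κ. (r0 depends only on w.1 in the use in Bbo by choice there.) -/
def BdrStmt : Prop := ∀ δ τ κ ω ε κ0 : ℝ, Par δ κ ε → 10 * δ + 5 * κ + 20 * ε ≤ ω →
  0 < κ0 → κ0 < κ → ∃ η C x0 : ℝ, 0 < η ∧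
  ∀ (x : ℝ) (a : ℕ → ℤ) (M N : ℕ) (f g : ℕ → ℂ) (G : Finset ℕ) (t u : ℕ → ℕ), x0 ≤ x → N ≤ M →
  x ^ ((1 : ℝ) / 3 - ε) ≤ N →
  x ^ (1 - ε) ≤ (M : ℝ) * N → (M : ℝ) * N ≤ x → (∀ m, ‖f m‖ ≤ 1) → (∀ n, ‖g n‖ ≤ 1) →
  (∀ q ∈ G, MQ.Mt (1 / 2 + δ) τ κ0 x (t q) q ∧ Int.gcd (a q) q = 1 ∧ x ^ (1 / 2 - ε / 2) < (q : ℝ) ∧
    MQ.Dv κ ω x (N * x ^ (-ε)) t u q) →
  (∀ q ∈ G, ∀ q' ∈ G, t q * u q = t q' * u q' → t q = t q' ∧ ((t q * u q : ℕ) : ℤ) ∣ a q - a q') →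
  ∑ q ∈ G, ‖∑ m ∈ Ioc M (2 * M), ∑ n ∈ Ioc N (2 * N),
      f m * g n * Dl (a q) (t q * u q) (q / (t q * u q)) (m * n)‖ ≤ C * x ^ (1 - η)

/-- Module Bds (theorem tBds). Uses: BdrStmt, MK.FspStmt, MI.BtaStmt. MODEL: Lib/MS/Bds.lean. -/
def BdsStmt : Prop := ∀ δ τ κ ω ε κ0 : ℝ, Par δ κ ε → 10 * δ + 5 * κ + 20 * ε ≤ ω →
  0 < κ0 → κ0 < κ → ∃ η C x0 : ℝ, 0 < η ∧
  ∀ (x : ℝ) (a : ℕ → ℤ) (M N : ℕ) (f g : ℕ → ℂ) (F : Finset ℕ) (t u : ℕ → ℕ), x0 ≤ x → N ≤ M →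
  x ^ ((1 : ℝ) / 3 - ε) ≤ N →
  x ^ (1 - ε) ≤ (M : ℝ) * N → (M : ℝ) * N ≤ x → (∀ m, ‖f m‖ ≤ 1) → (∀ n, ‖g n‖ ≤ 1) →
  (∀ q ∈ F, MQ.Mt (1 / 2 + δ) τ κ0 x (t q) q ∧ Int.gcd (a q) q = 1 ∧ x ^ (1 / 2 - ε / 2) < (q : ℝ) ∧
    MQ.Dv κ ω x (N * x ^ (-ε)) t u q) →
  (∀ q ∈ F, ∀ q' ∈ F, t q = t q' → u q = u q' → ((t q * u q : ℕ) : ℤ) ∣ a q - a q') →
  ∑ q ∈ F, ‖∑ m ∈ Ioc M (2 * M), ∑ n ∈ Ioc N (2 * N),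
      f m * g n * Dl (a q) (t q * u q) (q / (t q * u q)) (m * n)‖ ≤ C * x ^ (1 - η)

/-- Module Bfi (theorem tBfi). STATEMENT BAllStmt (MT/Stm.lean). Uses: BdsStmt, MI.BidStmt, MN.BrmStmt, ML.BlgStmt, MI.LrgStmt, MI.BtaStmt. MODEL: Lib/MS/Bfi.lean.
Proof. As there; ε small with 84δ + 60κ + 400ε ≤ 1, 20ε ≤ ω - 10δ - 5κ. -/
def BfiStmt : Prop := BAllStmt

end Pool.Agent.Lib.MT
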